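import Pool.Agent.H71.CW.Wid

/-!
# Board cwf_modules, row W3

The limit along an ultrafilter of sets with few classes over their complements has few classes
over its complement.
-/

set_option autoImplicit false

open Set

namespace Pool.Agent.CW

theorem pf_W3 : W3 := by
  intro c k U hU A hF
  classical
  obtain ⟨n0, hn0⟩ := U.nonempty_of_mem hF
  obtain ⟨g0, hg0⟩ := hn0
  -- the maps of the single sets
  let f : ℕ → ℕ → Fin k := fun n =>
    if h : Few c k ((Finset.range n : Finset ℕ) \ (A n) : Set ℕ) (A n) then h.choose else g0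
  have hf : ∀ n, Few c k ((Finset.range n : Finset ℕ) \ (A n) : Set ℕ) (A n) →
      ∀ a ∈ (A n : Set ℕ), ∀ a' ∈ (A n : Set ℕ), f n a = f n a' →
      ∀ z ∈ ((Finset.range n : Finset ℕ) \ (A n) : Set ℕ), ee c a z = ee c a' z := by
    intro n h
    have h1 : f n = h.choose := dif_pos h
    rw [h1]
    exact h.choose_spec
  -- the limit map
  have hex : ∀ z : ℕ, ∃ j : Fin k, {n | f n z = j} ∈ U := by
    intro z
    obtain ⟨j, hj⟩ := Ultrafilter.eq_pure_of_finite (U.map fun n => f n z)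
    refine ⟨j, ?_⟩
    have h1 : ({j} : Set (Fin k)) ∈ U.map fun n => f n z := by
      rw [hj, Ultrafilter.mem_pure]
      rfl
    rw [Ultrafilter.mem_map] at h1
    exact h1
  choose F hFz using hex
  refine ⟨F, ?_⟩
  intro a ha a' ha' hfa z hz
  have ha1 : {n | a ∈ A n} ∈ U := ha
  have ha2 : {n | a' ∈ A n} ∈ U := ha'
  have hz1 : {n | z ∈ A n}ᶜ ∈ U := by
    rw [Ultrafilter.compl_mem_iff_notMem]
    exact hz
  have hall := Filter.inter_mem (Filter.inter_mem (Filter.inter_mem ha1 ha2)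
    (Filter.inter_mem (hFz a) (hFz a'))) (Filter.inter_mem (Filter.inter_mem hz1 (hU (z + 1))) hF)
  obtain ⟨n, hn⟩ := U.nonempty_of_mem hall
  obtain ⟨⟨⟨h1, h2⟩, h3, h4⟩, ⟨h5, h6⟩, h7⟩ := hn
  have h1' : a ∈ A n := h1
  have h2' : a' ∈ A n := h2
  have h3' : f n a = F a := h3
  have h4' : f n a' = F a' := h4
  have h5' : z ∉ A n := h5
  have h6' : z + 1 ≤ n := h6
  have h7' : Few c k ((Finset.range n : Finset ℕ) \ (A n) : Set ℕ) (A n) := h7
  refine hf n h7' a ?_ a' ?_ ?_ z ⟨?_, ?_⟩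
  · exact_mod_cast h1'
  · exact_mod_cast h2'
  · rw [h3', h4', hfa]
  · rw [Finset.coe_range, Set.mem_Iio]
    omega
  · exact_mod_cast h5'

end Pool.Agent.CW
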